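import Pool.Agent.Work.MP_db9399_xf_helper62.XFrame

/-!
# MP_db9399, all scales: geometry of the pieces for RGX (owner helper42, for helper38)

Elementary double counting from `PcD`. `g1` bulk neighbours, `g2` neighbours of `V0` in a piece,
`g3` neighbours in other clusters, `g4` the vertices of `V0` in the cluster of the piece, `g5` sums
over the pieces, `g6` covering vertices, `g7` edges of `xt` and missing colours at `V0`.
-/

set_option autoImplicit false

namespace Pool.Agent.Work.MP_db9399_rg_helper42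

open Finset Classical
open Pool.Agent.Work.MP_db9399_all (nb)
open Pool.Agent.Work.MP_db9399_da
open Pool.Agent.Work.MP_db9399_xf

universe u

section basics
variable {V : Type u} {N J : ℕ} [Fintype V]

lemma mem_nb {G : SimpleGraph V} {v w : V} : w ∈ nb G v ↔ G.Adj v w := by
  simp [nb]

lemma mem_pV {P : Pcs V N} {n : Fin N} {v : V} : v ∈ pV P n ↔ v ∉ P.V0 ∧ P.pc v = n := by
  simp [pV]

lemma mem_sV {P : Pcs V N} {n : Fin N} {β : Bool} {v : V} :
    v ∈ sV P n β ↔ v ∉ P.V0 ∧ P.pc v = n ∧ P.sd v = β := by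
  simp [sV]

lemma sV_sub_pV (P : Pcs V N) (n : Fin N) (β : Bool) : sV P n β ⊆ pV P n := fun v hv => by
  rw [mem_sV] at hv
  exact mem_pV.2 ⟨hv.1, hv.2.1⟩

lemma pV_eq (P : Pcs V N) (n : Fin N) : pV P n = sV P n false ∪ sV P n true := by
  ext v
  rw [mem_union, mem_pV, mem_sV, mem_sV]
  cases P.sd v <;> simp

lemma pV_disj (P : Pcs V N) {n n' : Fin N} (h : n ≠ n') : Disjoint (pV P n) (pV P n') := by
  rw [disjoint_left]
  intro v hv hv'
  rw [mem_pV] at hv hv'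
  exact h (hv.2.symm.trans hv'.2)

lemma sV_disj (P : Pcs V N) {n n' : Fin N} {β β' : Bool} (h : (n, β) ≠ (n', β')) :
    Disjoint (sV P n β) (sV P n' β') := by
  rw [disjoint_left]
  intro v hv hv'
  rw [mem_sV] at hv hv'
  exact h (by rw [← hv.2.1, ← hv.2.2, hv'.2.1, hv'.2.2])

lemma nb_thin_sub (G : SimpleGraph V) (P : Pcs V N) (v : V) : nb (thin G P) v ⊆ nb G v :=
  fun w hw => by
    rw [mem_nb] at hw ⊢
    exact hw.1

/-- an edge with an end in `V0` is thin -/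
lemma mem_thin_of_V0 {G : SimpleGraph V} {P : Pcs V N} {v w : V} (h : G.Adj v w)
    (hw : w ∈ P.V0) : w ∈ nb (thin G P) v :=
  mem_nb.2 ⟨h, fun h' => h'.2.2.1 hw⟩

/-- double counting -/
lemma dc (G : SimpleGraph V) (A B : Finset V) :
    ∑ w ∈ A, (nb G w ∩ B).card = ∑ v ∈ B, (nb G v ∩ A).card := by
  have h1 : ∀ (A B : Finset V), ∀ w ∈ A, (nb G w ∩ B).card = ∑ v ∈ B, if G.Adj w v then 1 else 0 := by
    intro A B w _
    rw [← card_filter]
    congr 1
    ext v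
    rw [mem_inter, mem_nb, mem_filter]
    exact and_comm
  rw [sum_congr rfl (h1 A B), sum_congr rfl (h1 B A), sum_comm]
  refine sum_congr rfl fun v _ => sum_congr rfl fun w _ => ?_
  simp only [G.adj_comm]

end basics

section geo
variable {V : Type u} {N J : ℕ} [Fintype V]
variable {C g z θk θ' η a : ℝ} {M : ℕ} {S : Fin J → Scl} {G : SimpleGraph V} {d : ℕ}
  {X : XD V N J}

/-! ### (G1) -/

lemma nb_sdiff_sub_thin {n : Fin N} {β : Bool} {v : V} (hB : X.P.ty n = Ty.B)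
    (hv : v ∈ sV X.P n β) : nb G v \ sV X.P n (!β) ⊆ nb (thin G X.P) v := by
  intro w hw
  rw [mem_sdiff, mem_nb, mem_sV] at hw
  rw [mem_sV] at hv
  rw [mem_nb]
  refine ⟨hw.1, fun hb => hw.2 ⟨hb.2.2.1, ?_, ?_⟩⟩
  · rw [← hb.2.2.2.1, hv.2.1]
  · have := hb.2.2.2.2 (by rw [hv.2.1]; exact hB)
    rw [hv.2.2] at this
    revert this
    cases β <;> cases X.P.sd w <;> simp

/-- few neighbours outside the other side -/
theorem g1a (D : PcD C g z θk θ' η a M S G d X) {n : Fin N} {β : Bool} {v : V}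
    (hB : X.P.ty n = Ty.B) (hv : v ∈ sV X.P n β) :
    ((nb G v \ sV X.P n (!β)).card : ℝ) ≤ (S (X.sc n)).ζ * d := by
  have h1 := card_le_card (nb_sdiff_sub_thin (G := G) hB hv)
  rw [mem_sV] at hv
  have h2 := D.thd v (Or.inr ⟨hv.1, by rw [hv.2.1]; exact hB⟩)
  rw [hv.2.1] at h2
  exact le_trans (by exact_mod_cast h1) h2

/-- (G1) the bulk neighbours -/
theorem g1 (D : PcD C g z θk θ' η a M S G d X) {n : Fin N} {β : Bool} {v : V}
    (hB : X.P.ty n = Ty.B) (hv : v ∈ sV X.P n β) :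
    (1 - (S (X.sc n)).ζ) * d ≤ ((nb G v ∩ sV X.P n (!β)).card : ℝ) := by
  have h1 := g1a D hB hv
  have h2 : (nb G v ∩ sV X.P n (!β)).card + (nb G v \ sV X.P n (!β)).card = d := by
    rw [card_inter_add_card_sdiff, D.reg]
  have h3 : ((nb G v ∩ sV X.P n (!β)).card : ℝ) + ((nb G v \ sV X.P n (!β)).card : ℝ) = d := by
    exact_mod_cast h2
  linarith

/-- (G1) both sides are large -/
theorem g1' (D : PcD C g z θk θ' η a M S G d X) {n : Fin N} (hB : X.P.ty n = Ty.B) (β : Bool) :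
    (1 - (S (X.sc n)).ζ) * d ≤ ((sV X.P n β).card : ℝ) := by
  obtain ⟨v, hv⟩ := D.bN n hB
  have hv' : v ∈ sV X.P n (X.P.sd v) := by
    rw [mem_pV] at hv
    exact mem_sV.2 ⟨hv.1, hv.2, rfl⟩
  have h1 := g1 D hB hv'
  have h2 : ((nb G v ∩ sV X.P n (!(X.P.sd v))).card : ℝ) ≤ ((sV X.P n (!(X.P.sd v))).card : ℝ) := by
    exact_mod_cast card_le_card inter_subset_right
  have h3 : ∀ β' : Bool, ((sV X.P n β').card : ℝ) = ((sV X.P n false).card : ℝ) := by
    intro β'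
    cases β'
    · rfl
    · exact_mod_cast (D.bE n hB).symm
  rw [h3] at h2 ⊢
  linarith

/-! ### (G2) -/

/-- (G2) the edges between a set `W ⊆ V0` and the piece -/
theorem g2 (D : PcD C g z θk θ' η a M S G d X) {n : Fin N}
    (hn : X.P.ty n = Ty.N ∨ X.P.ty n = Ty.B) {W : Finset V} (hW : W ⊆ X.P.V0) :
    ∑ w ∈ W, ((nb G w ∩ pV X.P n).card : ℝ) ≤ (S (X.sc n)).θ * (d : ℝ) ^ 2 := by
  refine le_trans ?_ (D.ths n hn)
  have h1 : ∑ w ∈ W, ((nb G w ∩ pV X.P n).card : ℝ) = ∑ v ∈ pV X.P n, ((nb G v ∩ W).card : ℝ) := by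
    exact_mod_cast dc G W (pV X.P n)
  rw [h1]
  refine sum_le_sum fun v _ => ?_
  have : nb G v ∩ W ⊆ nb (thin G X.P) v := fun w hw => by
    rw [mem_inter, mem_nb] at hw
    exact mem_thin_of_V0 hw.1 (hW hw.2)
  exact_mod_cast card_le_card this

/-- Markov -/
lemma markov {α : Type*} (A : Finset α) (f : α → ℝ) (hf : ∀ w ∈ A, 0 ≤ f w) (r : ℝ) :
    ((A.filter (fun w => r ≤ f w)).card : ℝ) * r ≤ ∑ w ∈ A, f w := by
  have h1 : ((A.filter (fun w => r ≤ f w)).card : ℝ) * r ≤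
      ∑ w ∈ A.filter (fun w => r ≤ f w), f w := by
    rw [← nsmul_eq_mul]
    exact card_nsmul_le_sum _ _ _ fun w hw => (mem_filter.1 hw).2
  exact h1.trans (sum_le_sum_of_subset_of_nonneg (filter_subset _ _) fun w hw _ => hf w hw)

/-- (G2) the vertices of `V0` with many neighbours in the piece -/
theorem g2' (D : PcD C g z θk θ' η a M S G d X) {n : Fin N}
    (hn : X.P.ty n = Ty.N ∨ X.P.ty n = Ty.B) (r : ℝ) :
    ((X.P.V0.filter (fun w => r ≤ ((nb G w ∩ pV X.P n).card : ℝ))).card : ℝ) * r ≤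
      (S (X.sc n)).θ * (d : ℝ) ^ 2 :=
  (markov X.P.V0 (fun w => ((nb G w ∩ pV X.P n).card : ℝ)) (fun _ _ => Nat.cast_nonneg _) r).trans
    (g2 D hn (Subset.refl _))

/-! ### (G3) -/

/-- the vertices outside the cluster of the piece `n` -/
noncomputable def oc (X : XD V N J) (n : Fin N) : Finset V :=
  univ.filter (fun w => ∀ v ∈ pV X.P n, X.cq w ≠ X.cq v)

/-- (G3) edges between the piece and other clusters, set version -/
theorem g3s (D : PcD C g z θk θ' η a M S G d X) (n : Fin N) {W : Finset V}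
    (hW : ∀ w ∈ W, ∀ v ∈ pV X.P n, X.cq w ≠ X.cq v) :
    ∑ w ∈ W, ((nb G w ∩ pV X.P n).card : ℝ) ≤ a * (d : ℝ) ^ 2 := by
  refine le_trans ?_ (D.xs n)
  have h1 : ∑ w ∈ W, (nb G w ∩ pV X.P n).card ≤
      ∑ v ∈ pV X.P n, ((nb G v).filter (fun w => X.cq w ≠ X.cq v)).card := by
    rw [dc G W (pV X.P n)]
    refine sum_le_sum fun v hv => card_le_card fun w hw => ?_
    rw [mem_inter] at hw
    exact mem_filter.2 ⟨hw.1, hW w hw.2 v hv⟩
  exact_mod_cast h1

/-- (G3) sum -/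
theorem g3 (D : PcD C g z θk θ' η a M S G d X) (n : Fin N) :
    ∑ w ∈ univ.filter (fun w => ∀ v ∈ pV X.P n, X.cq w ≠ X.cq v),
      ((nb G w ∩ pV X.P n).card : ℝ) ≤ a * (d : ℝ) ^ 2 :=
  g3s D n fun _ hw => (mem_filter.1 hw).2

/-- (G3) number of vertices outside the cluster with `x` neighbours in the piece -/
theorem g3' (D : PcD C g z θk θ' η a M S G d X) (n : Fin N) (x : ℝ) :
    x * ((univ.filter (fun w => (∀ v ∈ pV X.P n, X.cq w ≠ X.cq v) ∧
      x ≤ ((nb G w ∩ pV X.P n).card : ℝ))).card : ℝ) ≤ a * (d : ℝ) ^ 2 := by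
  have h1 := markov (univ.filter (fun w => ∀ v ∈ pV X.P n, X.cq w ≠ X.cq v))
    (fun w => ((nb G w ∩ pV X.P n).card : ℝ)) (fun _ _ => Nat.cast_nonneg _) x
  rw [filter_filter] at h1
  rw [mul_comm]
  exact h1.trans (g3 D n)

/-! ### (G4) -/

/-- (G4) the vertices of `V0` in the cluster of `v` -/
theorem g4v (D : PcD C g z θk θ' η a M S G d X) {n : Fin N} {v : V} (hv : v ∈ pV X.P n) :
    ((X.P.V0.filter (fun w => X.cq w = X.cq v)).card : ℝ) ≤ (S (X.sc n)).θ * d := by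
  rw [mem_pV] at hv
  have h1 := D.v0c v hv.1
  rw [hv.2] at h1
  refine le_trans ?_ h1
  have : X.P.V0.filter (fun w => X.cq w = X.cq v) ⊆
      univ.filter (fun w => w ∈ X.P.V0 ∧ X.cq w = X.cq v) := fun w hw =>
    mem_filter.2 ⟨mem_univ _, mem_filter.1 hw⟩
  exact_mod_cast card_le_card this

/-- (G4) the vertices of `V0` in the cluster of the piece -/
theorem g4 (D : PcD C g z θk θ' η a M S G d X) (n : Fin N) (hθ : 0 ≤ (S (X.sc n)).θ) :
    ((X.P.V0.filter (fun w => ∃ v ∈ pV X.P n, X.cq w = X.cq v)).card : ℝ) ≤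
      (S (X.sc n)).θ * d := by
  rcases (pV X.P n).eq_empty_or_nonempty with h | ⟨v, hv⟩
  · have : X.P.V0.filter (fun w => ∃ v ∈ pV X.P n, X.cq w = X.cq v) = ∅ := by
      rw [h]
      simp
    rw [this, card_empty, Nat.cast_zero]
    exact mul_nonneg hθ (Nat.cast_nonneg _)
  · refine le_trans ?_ (g4v D hv)
    have : X.P.V0.filter (fun w => ∃ v ∈ pV X.P n, X.cq w = X.cq v) ⊆
        X.P.V0.filter (fun w => X.cq w = X.cq v) := fun w hw => by
      rw [mem_filter] at hw ⊢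
      obtain ⟨hw0, v', hv', he⟩ := hw
      refine ⟨hw0, he.trans ?_⟩
      rw [mem_pV] at hv hv'
      exact D.clp v' v hv'.1 hv.1 (hv'.2.trans hv.2.symm)
    exact_mod_cast card_le_card this

/-! ### (G5) -/

/-- (G5) -/
theorem g5 (D : PcD C g z θk θ' η a M S G d X) (w : V) (I : Finset (Fin N)) :
    ∑ n ∈ I, ((nb G w ∩ pV X.P n).card : ℝ) ≤ d := by
  have h1 : ∑ n ∈ I, (nb G w ∩ pV X.P n).card = (I.biUnion (fun n => nb G w ∩ pV X.P n)).card := by
    rw [card_biUnion]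
    intro n _ n' _ h
    exact (pV_disj X.P h).mono inter_subset_right inter_subset_right
  have h2 : (I.biUnion (fun n => nb G w ∩ pV X.P n)).card ≤ d := by
    rw [← D.reg w]
    exact card_le_card (biUnion_subset.2 fun n _ => inter_subset_left)
  rw [← h1] at h2
  exact_mod_cast h2

/-- (G5) all pieces -/
theorem g5' (D : PcD C g z θk θ' η a M S G d X) (w : V) :
    ∑ n : Fin N, ((nb G w ∩ pV X.P n).card : ℝ) ≤ d := g5 D w univ

/-- (G5) union lemma -/
theorem g5u (D : PcD C g z θk θ' η a M S G d X) (w : V) {α : Type*} [DecidableEq α]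
    (I : Finset (Fin N)) (A : Fin N → Finset α) (x : Fin N → ℝ) {ε : ℝ} (hε : 0 ≤ ε)
    (hx : ∀ n ∈ I, x n ≤ ((nb G w ∩ pV X.P n).card : ℝ))
    (hA : ∀ n ∈ I, ((A n).card : ℝ) ≤ ε * x n) : ((I.biUnion A).card : ℝ) ≤ ε * d := by
  have h1 : ((I.biUnion A).card : ℝ) ≤ ∑ n ∈ I, ((A n).card : ℝ) := by
    exact_mod_cast card_biUnion_le
  have h2 : ∑ n ∈ I, ((A n).card : ℝ) ≤ ∑ n ∈ I, ε * ((nb G w ∩ pV X.P n).card : ℝ) :=
    sum_le_sum fun n hn => (hA n hn).trans (mul_le_mul_of_nonneg_left (hx n hn) hε)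
  rw [← mul_sum] at h2
  exact h1.trans (h2.trans (mul_le_mul_of_nonneg_left (g5 D w I) hε))

/-! ### (G6) -/

lemma cvr_inter_ge (D : PcD C g z θk θ' η a M S G d X) {n : Fin N} {β : Bool} {w : V}
    (h : Cvr G X d n β w) :
    (1 - (S (X.sc n)).ζ) * d - d / 200 ≤ ((nb G w ∩ sV X.P n β).card : ℝ) := by
  have h1 := g1' D h.2.1 β
  have h2 : (sV X.P n β ∩ nb G w).card + (sV X.P n β \ nb G w).card = (sV X.P n β).card :=
    card_inter_add_card_sdiff _ _
  rw [inter_comm] at h2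
  have h3 : ((nb G w ∩ sV X.P n β).card : ℝ) + ((sV X.P n β \ nb G w).card : ℝ) =
      ((sV X.P n β).card : ℝ) := by exact_mod_cast h2
  have h4 := h.2.2
  linarith

/-- (G6) a covering vertex has almost all neighbours in the side -/
theorem g6a (D : PcD C g z θk θ' η a M S G d X) {n : Fin N} {β : Bool} {w : V}
    (hζ : (S (X.sc n)).ζ ≤ 1 / 1000) (h : Cvr G X d n β w) :
    99 / 100 * (d : ℝ) ≤ ((nb G w ∩ sV X.P n β).card : ℝ) := by
  have h1 := cvr_inter_ge D h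
  have hd : (0 : ℝ) ≤ d := Nat.cast_nonneg _
  nlinarith

/-- (G6) few neighbours outside the side -/
theorem g6b (D : PcD C g z θk θ' η a M S G d X) {n : Fin N} {β : Bool} {w : V}
    (h : Cvr G X d n β w) :
    ((nb G w \ sV X.P n β).card : ℝ) ≤ ((S (X.sc n)).ζ + 1 / 200) * d := by
  have h1 := cvr_inter_ge D h
  have h2 : (nb G w ∩ sV X.P n β).card + (nb G w \ sV X.P n β).card = d := by
    rw [card_inter_add_card_sdiff, D.reg]
  have h3 : ((nb G w ∩ sV X.P n β).card : ℝ) + ((nb G w \ sV X.P n β).card : ℝ) = d := by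
    exact_mod_cast h2
  linarith

/-- (G6) uniqueness -/
theorem g6c (D : PcD C g z θk θ' η a M S G d X) (hd : 1 ≤ d) {n n' : Fin N} {β β' : Bool} {w : V}
    (hζ : (S (X.sc n)).ζ ≤ 1 / 1000) (hζ' : (S (X.sc n')).ζ ≤ 1 / 1000)
    (h : Cvr G X d n β w) (h' : Cvr G X d n' β' w) : n = n' ∧ β = β' := by
  by_contra hne
  have hne' : (n, β) ≠ (n', β') := fun he => hne ⟨(Prod.mk.inj he).1, (Prod.mk.inj he).2⟩
  have h1 := g6a D hζ h
  have h2 := g6a D hζ' h'
  have h3 : (nb G w ∩ sV X.P n β).card + (nb G w ∩ sV X.P n' β').card ≤ d := by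
    rw [← D.reg w, ← card_union_of_disjoint
      ((sV_disj X.P hne').mono inter_subset_right inter_subset_right)]
    exact card_le_card (union_subset inter_subset_left inter_subset_left)
  have h4 : ((nb G w ∩ sV X.P n β).card : ℝ) + ((nb G w ∩ sV X.P n' β').card : ℝ) ≤ d := by
    exact_mod_cast h3
  have h5 : (1 : ℝ) ≤ d := by exact_mod_cast hd
  linarith

lemma theta_nonneg (D : PcD C g z θk θ' η a M S G d X) (hd : 1 ≤ d) {n : Fin N}
    (hn : X.P.ty n = Ty.N ∨ X.P.ty n = Ty.B) : 0 ≤ (S (X.sc n)).θ := by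
  have h1 := g2 D hn (empty_subset X.P.V0)
  rw [sum_empty] at h1
  have h2 : (0 : ℝ) < (d : ℝ) ^ 2 := by
    have : (0 : ℝ) < d := by exact_mod_cast hd
    positivity
  by_contra hneg
  push Not at hneg
  nlinarith

/-- (G6) few covering vertices for every piece -/
theorem g6d (D : PcD C g z θk θ' η a M S G d X) (hd : 1 ≤ d) {n : Fin N}
    (hζ : (S (X.sc n)).ζ ≤ 1 / 1000) (hθ : 0 ≤ (S (X.sc n)).θ) :
    ((univ.filter (fun w => ∃ β, Cvr G X d n β w)).card : ℝ) ≤ 2 * (S (X.sc n)).θ * d := by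
  have hd' : (1 : ℝ) ≤ d := by exact_mod_cast hd
  by_cases hB : X.P.ty n = Ty.B
  · have h1 := g2' D (Or.inr hB) (99 / 100 * (d : ℝ))
    have h2 : univ.filter (fun w => ∃ β, Cvr G X d n β w) ⊆
        X.P.V0.filter (fun w => 99 / 100 * (d : ℝ) ≤ ((nb G w ∩ pV X.P n).card : ℝ)) := by
      intro w hw
      obtain ⟨β, h⟩ := (mem_filter.1 hw).2
      refine mem_filter.2 ⟨h.1, (g6a D hζ h).trans ?_⟩
      exact_mod_cast card_le_card (inter_subset_inter (Subset.refl _) (sV_sub_pV _ _ _))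
    have h3 : ((univ.filter (fun w => ∃ β, Cvr G X d n β w)).card : ℝ) ≤
        ((X.P.V0.filter (fun w => 99 / 100 * (d : ℝ) ≤ ((nb G w ∩ pV X.P n).card : ℝ))).card : ℝ) := by
      exact_mod_cast card_le_card h2
    have h4 : ((univ.filter (fun w => ∃ β, Cvr G X d n β w)).card : ℝ) * (99 / 100 * (d : ℝ)) ≤
        (S (X.sc n)).θ * (d : ℝ) ^ 2 :=
      (mul_le_mul_of_nonneg_right h3 (by positivity)).trans h1
    have h5 : ((univ.filter (fun w => ∃ β, Cvr G X d n β w)).card : ℝ) * (99 / 100) ≤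
        (S (X.sc n)).θ * (d : ℝ) := by
      have hp : (0 : ℝ) < d := by linarith
      refine le_of_mul_le_mul_right ?_ hp
      nlinarith
    have h6 : (0 : ℝ) ≤ (S (X.sc n)).θ * d := mul_nonneg hθ (by linarith)
    linarith
  · have : univ.filter (fun w => ∃ β, Cvr G X d n β w) = ∅ := by
      refine filter_eq_empty_iff.2 fun w _ h => ?_
      obtain ⟨β, h⟩ := h
      exact hB h.2.1
    rw [this, card_empty, Nat.cast_zero]
    have : (0 : ℝ) ≤ (S (X.sc n)).θ * d := mul_nonneg hθ (by linarith)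
    linarith

/-! ### (G7) -/

omit [Fintype V] in
lemma xt_adj {v w : V} (h : ¬ Lk X v) : (xt G X).Adj v w ↔ (thin G X.P).Adj v w :=
  ⟨fun h' => h'.1, fun h' => ⟨h', fun h'' => h h''.1⟩⟩

omit [Fintype V] in
lemma not_Lk_of_V0 {v : V} (h : v ∈ X.P.V0) : ¬ Lk X v := fun h' => h'.1.1 h

omit [Fintype V] in
lemma not_Lk_of_ty {v : V} (h : X.P.ty (X.P.pc v) = Ty.N ∨ X.P.ty (X.P.pc v) = Ty.B) :
    ¬ Lk X v := fun h' => by
  rcases h with h | h <;> · rw [h'.1.2] at h; exact absurd h (by decide)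

/-- (G7) outside the light vertices of the pieces of type K all thin edges are in `xt` -/
theorem g7 {v : V} (h : ¬ Lk X v) : nb (xt G X) v = nb (thin G X.P) v := by
  ext w
  rw [mem_nb, mem_nb, xt_adj h]

/-- (G7) for the vertices of the pieces of type N, B -/
theorem g7NB {n : Fin N} {v : V} (hn : X.P.ty n = Ty.N ∨ X.P.ty n = Ty.B) (hv : v ∈ pV X.P n) :
    nb (xt G X) v = nb (thin G X.P) v :=
  g7 (not_Lk_of_ty (by rw [(mem_pV.1 hv).2]; exact hn))

/-- (G7) for `w ∈ V0` all edges are in `xt` -/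
theorem g7V0 {w : V} (h : w ∈ X.P.V0) : nb (xt G X) w = nb G w := by
  rw [g7 (not_Lk_of_V0 h)]
  refine Subset.antisymm (nb_thin_sub _ _ _) fun x hx => ?_
  rw [mem_nb] at hx ⊢
  exact ⟨hx, fun h' => h'.2.1 h⟩

/-- (G7) the missing colours at `w ∈ V0` -/
noncomputable def Ms (G : SimpleGraph V) (X : XD V N J) (d : ℕ) (t : V → V → ℕ) (w : V) :
    Finset ℕ := range (d + 2) \ Ft (xt G X) t w

/-- (G7) there are exactly two of them -/
theorem g7m (D : PcD C g z θk θ' η a M S G d X) {t : V → V → ℕ} {w : V} (hw : w ∈ X.P.V0)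
    (hlt : ∀ v, (xt G X).Adj w v → t w v < d + 2)
    (hinj : Set.InjOn (t w) (nb (xt G X) w : Set V)) : (Ms G X d t w).card = 2 := by
  have h1 : Ft (xt G X) t w ⊆ range (d + 2) := by
    intro b hb
    obtain ⟨v, hv, rfl⟩ := mem_image.1 hb
    exact mem_range.2 (hlt v (mem_nb.1 hv))
  have h2 : (Ft (xt G X) t w).card = d := by
    rw [Ft, card_image_of_injOn hinj, g7V0 hw, D.reg]
  rw [Ms, card_sdiff_of_subset h1, h2, card_range]
  omega

/-- (G7) the second missing colour -/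
theorem g7m2 (D : PcD C g z θk θ' η a M S G d X) {t : V → V → ℕ} {w : V} (hw : w ∈ X.P.V0)
    (hlt : ∀ v, (xt G X).Adj w v → t w v < d + 2)
    (hinj : Set.InjOn (t w) (nb (xt G X) w : Set V)) {m : ℕ} (hm : m < d + 2)
    (hm' : m ∉ Ft (xt G X) t w) :
    ∃ m2, m2 < d + 2 ∧ m2 ∉ Ft (xt G X) t w ∧ m2 ≠ m ∧
      ∀ b, b < d + 2 → b ∉ Ft (xt G X) t w → b = m ∨ b = m2 := by
  obtain ⟨x, y, hxy, he⟩ := card_eq_two.1 (g7m D hw hlt hinj)
  have hmem : ∀ b, b < d + 2 → b ∉ Ft (xt G X) t w → b = x ∨ b = y := by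
    intro b hb hb'
    have : b ∈ Ms G X d t w := mem_sdiff.2 ⟨mem_range.2 hb, hb'⟩
    rw [he, mem_insert, mem_singleton] at this
    exact this
  have hx : x < d + 2 ∧ x ∉ Ft (xt G X) t w := by
    have : x ∈ Ms G X d t w := by rw [he]; simp
    exact ⟨mem_range.1 (mem_sdiff.1 this).1, (mem_sdiff.1 this).2⟩
  have hy : y < d + 2 ∧ y ∉ Ft (xt G X) t w := by
    have : y ∈ Ms G X d t w := by rw [he]; simp
    exact ⟨mem_range.1 (mem_sdiff.1 this).1, (mem_sdiff.1 this).2⟩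
  rcases hmem m hm hm' with rfl | rfl
  · exact ⟨y, hy.1, hy.2, hxy.symm, hmem⟩
  · exact ⟨x, hx.1, hx.2, hxy, fun b hb hb' => (hmem b hb hb').symm⟩

end geo

end Pool.Agent.Work.MP_db9399_rg_helper42
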