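import Pool.Agent.Work.MP_db9399_iv_helper38.RXD

/-!
# MP_db9399, all scales, block RGX4: K0, few conflicts of a covering vertex (helper42)
-/

set_option autoImplicit false

namespace Pool.Agent.Work.MP_db9399_rg_helper42

open Finset Classical
open Pool.Agent.Work.MP_db9399_all (nb)
open Pool.Agent.Work.MP_db9399_da
open Pool.Agent.Work.MP_db9399_xf
open Pool.Agent.Work.MP_db9399_iv_helper38

universe u

lemma small_pow (δ ε : ℝ) (hδ : 0 < δ) (hε : 0 < ε) :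
    ∃ d0 : ℕ, ∀ d : ℕ, d0 ≤ d → (d : ℝ) ^ (-δ) ≤ ε := by
  have h := ((tendsto_rpow_neg_atTop hδ).comp tendsto_natCast_atTop_atTop).eventually_le_const hε
  exact Filter.eventually_atTop.1 h

section k0
variable {V : Type u} {N J : ℕ} [Fintype V]
variable {C g z θk θ' η a : ℝ} {M : ℕ} {S : Fin J → Scl} {G : SimpleGraph V} {d : ℕ}
  {X : XD V N J}

/-- conflicts at the pieces of type B -/
lemma k2 (D : PcD C g z θk θ' η a M S G d X) (hd : 1 ≤ d) {πk τ : ℝ}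
    (hS : ∀ s, Sml πk τ (S s)) (w : V) :
    ((univ.filter fun w' => w' ∈ X.P.V0 ∧ ∃ n, X.P.ty n = Ty.B ∧
      (S (X.sc n)).ζ / 1000 * d ≤ ((nb G w ∩ pV X.P n).card : ℝ) ∧
      (S (X.sc n)).ζ / 1000 * d ≤ ((nb G w' ∩ pV X.P n).card : ℝ)).card : ℝ) ≤
      1 / 10 ^ 5 * d := by
  have hd' : (0 : ℝ) < d := by exact_mod_cast hd
  have h1 := g5u D w (univ.filter fun n => X.P.ty n = Ty.B ∧
      (S (X.sc n)).ζ / 1000 * d ≤ ((nb G w ∩ pV X.P n).card : ℝ))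
    (fun n => X.P.V0.filter fun w' => (S (X.sc n)).ζ / 1000 * d ≤
      ((nb G w' ∩ pV X.P n).card : ℝ))
    (fun n => (S (X.sc n)).ζ / 1000 * d) (ε := 1 / 10 ^ 5) (by norm_num)
    (fun n hn => (mem_filter.1 hn).2.2) (fun n hn => by
      have h2 := g2' D (Or.inr (mem_filter.1 hn).2.1) ((S (X.sc n)).ζ / 1000 * d)
      have hζ := (hS (X.sc n)).ζp
      have hθ := (hS (X.sc n)).θ1
      refine le_of_mul_le_mul_right (h2.trans ?_)
        (show 0 < (S (X.sc n)).ζ / 1000 * (d : ℝ) by positivity)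
      have h3 : (S (X.sc n)).θ * (d : ℝ) ^ 2 ≤ (S (X.sc n)).ζ ^ 2 / 10 ^ 11 * (d : ℝ) ^ 2 :=
        mul_le_mul_of_nonneg_right hθ (sq_nonneg _)
      refine h3.trans (le_of_eq ?_)
      ring)
  refine le_trans ?_ h1
  refine Nat.cast_le.2 (card_le_card fun w' hw' => ?_)
  obtain ⟨h0, n, hB, h2, h3⟩ := (mem_filter.1 hw').2
  exact mem_biUnion.2 ⟨n, mem_filter.2 ⟨mem_univ _, hB, h2⟩, mem_filter.2 ⟨h0, h3⟩⟩

/-- conflicts at the pieces of type K -/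
lemma k3 (D : PcD C g z θk θ' η a M S G d X) (hd : 1 ≤ d) {πk τ : ℝ} (hτ : 0 < τ)
    (hS : ∀ s, Sml πk τ (S s)) (ha : a ≤ τ ^ 2 / 10 ^ 6) (w : V) :
    ((univ.filter fun w' => w' ∈ X.P.V0 ∧ ∃ n, X.P.ty n = Ty.K ∧
      τ * d ≤ ((nb G w ∩ pV X.P n).card : ℝ) ∧
      τ * d ≤ ((nb G w' ∩ pV X.P n).card : ℝ)).card : ℝ) ≤
      2 / 10 ^ 6 * d := by
  have hd' : (0 : ℝ) < d := by exact_mod_cast hd
  have h1 := g5u D w (univ.filter fun n => X.P.ty n = Ty.K ∧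
      τ * d ≤ ((nb G w ∩ pV X.P n).card : ℝ))
    (fun n => X.P.V0.filter fun w' => τ * d ≤ ((nb G w' ∩ pV X.P n).card : ℝ))
    (fun n => τ * d) (ε := 2 / 10 ^ 6) (by norm_num)
    (fun n hn => (mem_filter.1 hn).2.2) (fun n hn => by
      have h2 := g4 D n (hS (X.sc n)).θp.le
      have h3 := g3' D n (τ * d)
      have hsub : X.P.V0.filter (fun w' => τ * d ≤ ((nb G w' ∩ pV X.P n).card : ℝ)) ⊆
          X.P.V0.filter (fun w => ∃ v ∈ pV X.P n, X.cq w = X.cq v) ∪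
          univ.filter (fun w => (∀ v ∈ pV X.P n, X.cq w ≠ X.cq v) ∧
            τ * d ≤ ((nb G w ∩ pV X.P n).card : ℝ)) := by
        intro w' hw'
        rw [mem_filter] at hw'
        rw [mem_union, mem_filter, mem_filter]
        by_cases h : ∃ v ∈ pV X.P n, X.cq w' = X.cq v
        · exact Or.inl ⟨hw'.1, h⟩
        · push Not at h
          exact Or.inr ⟨mem_univ _, h, hw'.2⟩
      have h4 : ((X.P.V0.filter (fun w' => τ * d ≤
          ((nb G w' ∩ pV X.P n).card : ℝ))).card : ℝ) ≤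
          ((X.P.V0.filter (fun w => ∃ v ∈ pV X.P n, X.cq w = X.cq v)).card : ℝ) +
          ((univ.filter (fun w => (∀ v ∈ pV X.P n, X.cq w ≠ X.cq v) ∧
            τ * d ≤ ((nb G w ∩ pV X.P n).card : ℝ))).card : ℝ) := by
        exact_mod_cast (card_le_card hsub).trans (card_union_le _ _)
      have h5 : ((univ.filter (fun w => (∀ v ∈ pV X.P n, X.cq w ≠ X.cq v) ∧
            τ * d ≤ ((nb G w ∩ pV X.P n).card : ℝ))).card : ℝ) ≤ 1 / 10 ^ 6 * (τ * d) := by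
        refine le_of_mul_le_mul_left (h3.trans ?_) (show 0 < τ * (d : ℝ) by positivity)
        have h6 : a * (d : ℝ) ^ 2 ≤ τ ^ 2 / 10 ^ 6 * (d : ℝ) ^ 2 :=
          mul_le_mul_of_nonneg_right ha (sq_nonneg _)
        refine h6.trans (le_of_eq ?_)
        ring
      have h7 : (S (X.sc n)).θ * d ≤ τ / 10 ^ 6 * d :=
        mul_le_mul_of_nonneg_right (hS (X.sc n)).θ2 hd'.le
      have h8 : τ / 10 ^ 6 * (d : ℝ) + 1 / 10 ^ 6 * (τ * d) = 2 / 10 ^ 6 * (τ * d) := by ring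
      linarith)
  refine le_trans ?_ h1
  refine Nat.cast_le.2 (card_le_card fun w' hw' => ?_)
  obtain ⟨h0, n, hB, h2, h3⟩ := (mem_filter.1 hw').2
  exact mem_biUnion.2 ⟨n, mem_filter.2 ⟨mem_univ _, hB, h2⟩, mem_filter.2 ⟨h0, h3⟩⟩

/-- conflicts in the cluster -/
lemma k4 (D : PcD C g z θk θ' η a M S G d X) (hd : 1 ≤ d) {πk τ : ℝ}
    (hS : ∀ s, Sml πk τ (S s)) (w : V) :
    ((univ.filter fun w' => w' ∈ X.P.V0 ∧ ∃ v, v ∉ X.P.V0 ∧ X.cq w = X.cq v ∧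
      X.cq w' = X.cq v).card : ℝ) ≤ 1 / 10 ^ 6 * d := by
  have hd' : (0 : ℝ) < d := by exact_mod_cast hd
  by_cases h : ∃ v, v ∉ X.P.V0 ∧ X.cq w = X.cq v
  · obtain ⟨v0, hv0, hcv⟩ := h
    have h1 := D.v0c v0 hv0
    have h2 : ((univ.filter fun w' => w' ∈ X.P.V0 ∧ ∃ v, v ∉ X.P.V0 ∧ X.cq w = X.cq v ∧
        X.cq w' = X.cq v).card : ℝ) ≤
        ((univ.filter (fun w => w ∈ X.P.V0 ∧ X.cq w = X.cq v0)).card : ℝ) := by
      refine Nat.cast_le.2 (card_le_card fun w' hw' => ?_)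
      obtain ⟨h0, v, _, h3, h4⟩ := (mem_filter.1 hw').2
      exact mem_filter.2 ⟨mem_univ _, h0, h4.trans (h3.symm.trans hcv)⟩
    refine h2.trans (h1.trans (mul_le_mul_of_nonneg_right ?_ hd'.le))
    have hs := hS (X.sc (X.P.pc v0))
    have h3 := hs.θ1
    have h4 := hs.ζ1
    have h5 := hs.ζp
    have h6 : (S (X.sc (X.P.pc v0))).ζ ^ 2 ≤ 1 := by nlinarith
    linarith
  · have : (univ.filter fun w' => w' ∈ X.P.V0 ∧ ∃ v, v ∉ X.P.V0 ∧ X.cq w = X.cq v ∧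
        X.cq w' = X.cq v) = ∅ := by
      refine filter_eq_empty_iff.2 fun w' _ hw' => h ?_
      obtain ⟨_, v, hv, hv', _⟩ := hw'
      exact ⟨v, hv, hv'⟩
    rw [this, card_empty, Nat.cast_zero]
    positivity

/-- conflicts outside the cluster -/
lemma k5 (D : PcD C g z θk θ' η a M S G d X) (hd : 1 ≤ d) {x : ℕ} (hx : 1 ≤ x)
    (ha : a * (d : ℝ) ^ 2 ≤ 1 / 10 ^ 6 * (x : ℝ) ^ 2) (w : V) :
    ((univ.filter fun w' => w' ∈ X.P.V0 ∧ ∃ n, (∀ v ∈ pV X.P n, X.cq w ≠ X.cq v ∧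
      X.cq w' ≠ X.cq v) ∧ x ≤ (nb G w ∩ pV X.P n).card ∧
      x ≤ (nb G w' ∩ pV X.P n).card).card : ℝ) ≤ 1 / 10 ^ 6 * d := by
  have hd' : (0 : ℝ) < d := by exact_mod_cast hd
  have hx' : (0 : ℝ) < x := by exact_mod_cast hx
  have h1 := g5u D w (univ.filter fun n => (x : ℝ) ≤ ((nb G w ∩ pV X.P n).card : ℝ))
    (fun n => univ.filter fun w' => (∀ v ∈ pV X.P n, X.cq w' ≠ X.cq v) ∧
      (x : ℝ) ≤ ((nb G w' ∩ pV X.P n).card : ℝ))
    (fun n => (x : ℝ)) (ε := 1 / 10 ^ 6) (by norm_num)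
    (fun n hn => (mem_filter.1 hn).2) (fun n hn => by
      refine le_of_mul_le_mul_left ((g3' D n (x : ℝ)).trans (ha.trans (le_of_eq ?_))) hx'
      ring)
  refine le_trans ?_ h1
  refine Nat.cast_le.2 (card_le_card fun w' hw' => ?_)
  obtain ⟨h0, n, hB, h2, h3⟩ := (mem_filter.1 hw').2
  exact mem_biUnion.2 ⟨n, mem_filter.2 ⟨mem_univ _, by exact_mod_cast h2⟩,
    mem_filter.2 ⟨mem_univ _, fun v hv => (hB v hv).2, by exact_mod_cast h3⟩⟩

end k0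

/-- **K0** -/
theorem stmt_K0 : Stmt_K0.{u} := by
  intro πk C g z τ e M J S c' hC
  obtain ⟨_, _, _, _, _, _, _, hτ, _, hc', hS⟩ := hC
  obtain ⟨d1, hd1⟩ := small_pow c' (τ ^ 2 / 10 ^ 6) hc' (by positivity)
  obtain ⟨d2, hd2⟩ := small_pow (c' / 2) (1 / 10 ^ 6) (by positivity) (by norm_num)
  refine ⟨d1 + d2 + 1, fun {V} _ {N} G d X θk θ' η hd D w n β hw => ?_⟩
  have hd1' := hd1 d (by omega)
  have hd2' := hd2 d (by omega)
  have hdn : 1 ≤ d := by omega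
  have hdp : (0 : ℝ) < d := by exact_mod_cast hdn
  have hD := D.toPcD
  -- the bound of the last kind
  have hx : (d : ℝ) ^ (1 - c' / 4) ≤ (x0 c' d : ℝ) := Nat.le_ceil _
  have hx1 : 1 ≤ x0 c' d := by
    have : (0 : ℝ) < (d : ℝ) ^ (1 - c' / 4) := Real.rpow_pos_of_pos hdp _
    exact Nat.one_le_iff_ne_zero.2 fun h0 => by
      rw [h0, Nat.cast_zero] at hx
      linarith
  have h5a : (d : ℝ) ^ (-c') * (d : ℝ) ^ 2 ≤ 1 / 10 ^ 6 * (x0 c' d : ℝ) ^ 2 := by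
    have h1 : (d : ℝ) ^ (-c') * (d : ℝ) ^ 2 =
        (d : ℝ) ^ (-(c' / 2)) * ((d : ℝ) ^ (1 - c' / 4)) ^ 2 := by
      rw [← Real.rpow_natCast ((d : ℝ) ^ (1 - c' / 4)), ← Real.rpow_mul hdp.le,
        ← Real.rpow_natCast (d : ℝ) 2, ← Real.rpow_add hdp, ← Real.rpow_add hdp]
      congr 1
      push_cast
      ring
    rw [h1]
    refine mul_le_mul hd2' (pow_le_pow_left₀ (Real.rpow_nonneg hdp.le _) hx 2) (by positivity)
      (by norm_num)
  have e2 := k2 hD hdn hS w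
  have e3 := k3 hD hdn hτ hS hd1' w
  have e4 := k4 hD hdn hS w
  have e5 := k5 hD hdn hx1 h5a w
  have e1 := g6b hD hw
  have hζ := (hS (X.sc n)).ζ1
  -- the union
  have hsub : (univ.filter fun w' => w' ∈ X.P.V0 ∧ w' ≠ w ∧
      CgR τ (x0 c' d) S G d X w w') ⊆
      (nb G w \ sV X.P n β) ∪
      ((univ.filter fun w' => w' ∈ X.P.V0 ∧ ∃ n, X.P.ty n = Ty.B ∧
        (S (X.sc n)).ζ / 1000 * d ≤ ((nb G w ∩ pV X.P n).card : ℝ) ∧
        (S (X.sc n)).ζ / 1000 * d ≤ ((nb G w' ∩ pV X.P n).card : ℝ)) ∪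
      ((univ.filter fun w' => w' ∈ X.P.V0 ∧ ∃ n, X.P.ty n = Ty.K ∧
        τ * d ≤ ((nb G w ∩ pV X.P n).card : ℝ) ∧
        τ * d ≤ ((nb G w' ∩ pV X.P n).card : ℝ)) ∪
      ((univ.filter fun w' => w' ∈ X.P.V0 ∧ ∃ v, v ∉ X.P.V0 ∧ X.cq w = X.cq v ∧
        X.cq w' = X.cq v) ∪
      (univ.filter fun w' => w' ∈ X.P.V0 ∧ ∃ n, (∀ v ∈ pV X.P n, X.cq w ≠ X.cq v ∧
        X.cq w' ≠ X.cq v) ∧ x0 c' d ≤ (nb G w ∩ pV X.P n).card ∧
        x0 c' d ≤ (nb G w' ∩ pV X.P n).card)))) := by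
    intro w' hw'
    obtain ⟨h0, _, h⟩ := (mem_filter.1 hw').2
    rcases h with h | h | h | h | h
    · refine mem_union_left _ (mem_sdiff.2 ⟨mem_nb.2 h, fun hs => ?_⟩)
      exact (mem_sV.1 hs).1 h0
    · exact mem_union_right _ (mem_union_left _ (mem_filter.2 ⟨mem_univ _, h0, h⟩))
    · exact mem_union_right _ (mem_union_right _ (mem_union_left _
        (mem_filter.2 ⟨mem_univ _, h0, h⟩)))
    · exact mem_union_right _ (mem_union_right _ (mem_union_right _ (mem_union_left _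
        (mem_filter.2 ⟨mem_univ _, h0, h⟩))))
    · exact mem_union_right _ (mem_union_right _ (mem_union_right _ (mem_union_right _
        (mem_filter.2 ⟨mem_univ _, h0, h⟩))))
  have hc := (card_le_card hsub).trans ((card_union_le _ _).trans (add_le_add_right
    ((card_union_le _ _).trans (add_le_add_right ((card_union_le _ _).trans (add_le_add_right
      (card_union_le _ _) _)) _)) _))
  have hc' := (Nat.cast_le (α := ℝ)).2 hc
  push_cast at hc'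
  refine hc'.trans ?_
  have h9 : ((S (X.sc n)).ζ + 1 / 200) * (d : ℝ) ≤ (1 / 10 ^ 5 + 1 / 200) * d :=
    mul_le_mul_of_nonneg_right (by linarith) hdp.le
  linarith

end Pool.Agent.Work.MP_db9399_rg_helper42
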